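import Pool.Agent.X12.Cyc

/-!
# The conjectured values of the quadratic-residue root polynomial at cube roots of unity fail

For `p = 107` the least solution of `3 x ^ 2 - 4 = 107 y ^ 2` is `(12, 2)`, but (as the class number of
`ℚ(√321)` is `3`) the absolute value of `S_107(ω)` is the cube of `(12 √3 - 2 √107) / 2`.  The two
conjectured identities would imply `S ^ 12 = (215 ∓ 12 √321) ^ 6`, an integral relation between roots
of unity of order `321`; it fails modulo a prime over `643 ≡ 1 (mod 321)`.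
-/

set_option autoImplicit false

namespace Pool.Agent.Results.MP_06877e_nt.CounterexampleAt107

open Complex Finset Polynomial Pool.Agent.X12 NumberField

/-- `S_p(x)`, the product of `x - exp (2 π i k² / p)` over `1 ≤ k ≤ (p - 1) / 2`. -/
noncomputable def S (p : ℕ) (x : ℂ) : ℂ :=
  ∏ k ∈ Finset.Icc 1 ((p - 1) / 2), (x - exp (2 * Real.pi * I * (k : ℂ) ^ 2 / p))

/-- `ω = exp (2 π i / 3)`. -/
noncomputable def omega : ℂ := exp (2 * Real.pi * I / 3)

/-- The class number of `ℚ(√-p)`. -/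
noncomputable def classNumber (p : ℕ) : ℕ :=
  Nat.card (ClassGroup (𝓞 (IntermediateField.adjoin ℚ {((Real.sqrt p : ℝ) : ℂ) * I})))

/-- `N_p`, the number of `1 ≤ k < p / 3` with `(k/p) = 1`. -/
noncomputable def N (p : ℕ) [Fact p.Prime] : ℕ :=
  ((Finset.range p).filter (fun k => 1 ≤ k ∧ 3 * k < p ∧ legendreSym p k = 1)).card

/-- `(x, y)` is the least solution in positive integers of `3 x² + 4 (p/3) = p y²`. -/
def LeastSolution (p x y : ℕ) : Prop :=
  0 < x ∧ 0 < y ∧ 3 * (x : ℤ) ^ 2 + 4 * legendreSym 3 p = p * (y : ℤ) ^ 2 ∧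
    ∀ x' y' : ℕ, 0 < x' → 0 < y' → 3 * (x' : ℤ) ^ 2 + 4 * legendreSym 3 p = p * (y' : ℤ) ^ 2 →
      x ≤ x' ∧ y ≤ y'

/-- `σ_p = (-1) ^ ((h(-p) + 1) / 2) (p/3)`. -/
noncomputable def sigma (p : ℕ) : ℂ := (-1) ^ ((classNumber p + 1) / 2) * (legendreSym 3 p : ℂ)

/-- `c_p`: it is `i` if `p ≡ 7 (mod 12)` and `(-1) ^ N_p i ω` if `p ≡ 11 (mod 12)`. -/
noncomputable def c (p : ℕ) [Fact p.Prime] : ℂ :=
  if p % 12 = 7 then I else (-1) ^ N p * I * omega

/-- `d_p`: it is `i` if `p ≡ 7 (mod 12)` and `(-1) ^ N_p i ω̄` if `p ≡ 11 (mod 12)`. -/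
noncomputable def d (p : ℕ) [Fact p.Prime] : ℂ :=
  if p % 12 = 7 then I else (-1) ^ N p * I * (starRingEnd ℂ) omega

instance fact107 : Fact (Nat.Prime 107) := ⟨by norm_num⟩
instance fact643 : Fact (Nat.Prime 643) := ⟨by norm_num⟩

/-- the root of unity of order `321` -/
noncomputable def z : ℂ := exp (2 * Real.pi * I / (321 : ℕ))

lemma hz : IsPrimitiveRoot z 321 := Complex.isPrimitiveRoot_exp 321 (by norm_num)

lemma z_pow_107 : z ^ 107 = omega := by
  rw [z, omega, ← Complex.exp_nat_mul]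
  congr 1
  push_cast
  ring

lemma z_pow_three : z ^ 3 = exp (2 * Real.pi * I / 107) := by
  rw [z, ← Complex.exp_nat_mul]
  congr 1
  push_cast
  ring

lemma z_pow_214 : z ^ 214 = (starRingEnd ℂ) omega := by
  have h1 : z ^ 214 = omega ^ 2 := by rw [← z_pow_107, ← pow_mul]
  have h2 : omega ^ 3 = 1 := by rw [← z_pow_107, ← pow_mul]; exact hz.pow_eq_one
  have h3 : (starRingEnd ℂ) omega * omega = 1 := by
    rw [← Complex.normSq_eq_conj_mul_self, Complex.normSq_eq_norm_sq, omega,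
      show 2 * (Real.pi : ℂ) * I / 3 = ((2 * Real.pi / 3 : ℝ) : ℂ) * I by push_cast; ring,
      Complex.norm_exp_ofReal_mul_I]
    norm_num
  have h4 : omega ≠ 0 := Complex.exp_ne_zero _
  apply mul_right_cancel₀ h4
  rw [h3, h1, ← h2]
  ring

lemma z_gauss (k : ℕ) : exp (2 * Real.pi * I * (k : ℂ) ^ 2 / (107 : ℕ)) = z ^ (3 * (k ^ 2 % 107)) := by
  have h107 : (z ^ 3) ^ 107 = 1 := by rw [← pow_mul]; exact hz.pow_eq_one
  rw [pow_mul, ← pow_eq_pow_mod _ h107, z_pow_three, ← Complex.exp_nat_mul]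
  congr 1
  push_cast
  ring

/-- the product as a polynomial in the root of unity -/
noncomputable def P (w : ℕ) : ℤ[X] := ∏ k ∈ Finset.Icc 1 53, (X ^ w - X ^ (3 * (k ^ 2 % 107)))

lemma aeval_P (w : ℕ) : aeval z (P w) = S 107 (z ^ w) := by
  unfold P S
  rw [map_prod]
  refine Finset.prod_congr rfl fun k _ => ?_
  rw [z_gauss, map_sub, map_pow, map_pow, aeval_X]

/-- an element of order `321` modulo `643` -/
lemma hg : IsPrimitiveRoot (49 : ZMod 643) 321 := by
  have h : orderOf (49 : ZMod 643) = 321 := by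
    apply orderOf_eq_of_pow_and_pow_div_prime (by norm_num)
    · decide +kernel
    · intro q hq hd
      have h2 : q ∣ 3 * 107 := by norm_num at hd ⊢; exact hd
      rcases hq.dvd_mul.1 h2 with h3 | h3
      · rw [(Nat.prime_dvd_prime_iff_eq hq (by norm_num)).1 h3]
        decide +kernel
      · rw [(Nat.prime_dvd_prime_iff_eq hq (by norm_num)).1 h3]
        decide +kernel
  rw [← h]
  exact IsPrimitiveRoot.orderOf _

lemma core (w : ℕ) (v : ZMod 643) (hv : aeval (49 : ZMod 643) (P w) = v) (ε : ℤ) (hε : ε = 1 ∨ ε = -1)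
    (hS : (S 107 (z ^ w)) ^ 12 =
      (215 - 12 * ε * (((Real.sqrt 3 : ℝ) : ℂ) * ((Real.sqrt 107 : ℝ) : ℂ))) ^ 6) :
    v ^ 12 = (215 - 12 * 103) ^ 6 ∨ v ^ 12 = (215 + 12 * 103) ^ 6 := by
  have hz3 : IsPrimitiveRoot (z ^ 3) 107 := hz.pow (by norm_num) (by norm_num)
  obtain ⟨G, hG⟩ := exists_gauss (p := 107) (by norm_num) hz3
  rw [qc_neg_one_of_three (p := 107) (by norm_num)] at hG
  -- the square root of `321` as a polynomial in the root of unity
  set T : ℤ[X] := G * (1 + 2 * X ^ 107) with hT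
  have hw : omega ^ 2 + omega + 1 = 0 := by
    have h3 : IsPrimitiveRoot omega 3 := by
      rw [← z_pow_107]; exact hz.pow (by norm_num) (by norm_num)
    have := h3.geom_sum_eq_zero (by norm_num)
    simp only [Finset.sum_range_succ, Finset.sum_range_zero, pow_zero, pow_one, zero_add] at this
    linear_combination this
  have hT2 : (aeval z T) ^ 2 = 321 := by
    rw [hT, map_mul, mul_pow, hG]
    simp only [map_add, map_one, map_mul, map_pow, aeval_X, z_pow_107, map_ofNat]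
    push_cast
    linear_combination (-428) * hw
  set r : ℂ := ((Real.sqrt 3 : ℝ) : ℂ) * ((Real.sqrt 107 : ℝ) : ℂ) with hr
  have hr2 : r ^ 2 = 321 := by
    have h1 : (((Real.sqrt 3 : ℝ) : ℂ)) ^ 2 = 3 := by
      rw [← Complex.ofReal_pow, Real.sq_sqrt (by norm_num)]; norm_num
    have h2 : (((Real.sqrt 107 : ℝ) : ℂ)) ^ 2 = 107 := by
      rw [← Complex.ofReal_pow, Real.sq_sqrt (by norm_num)]; norm_num
    rw [hr, mul_pow, h1, h2]; norm_num
  have hsign : ∃ η : ℤ, (η = 1 ∨ η = -1) ∧ (ε : ℂ) * r = η * aeval z T := by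
    rcases sq_eq_sq_iff_eq_or_eq_neg.1 (hr2.trans hT2.symm) with h | h
    · exact ⟨ε, hε, by rw [h]⟩
    · refine ⟨-ε, ?_, by rw [h]; push_cast; ring⟩
      rcases hε with h' | h'
      · right; rw [h']
      · left; rw [h']; norm_num
  obtain ⟨η, hη, hηr⟩ := hsign
  -- transfer
  have h1 : aeval (49 : ZMod 643) (T ^ 2 - 321) = 0 := by
    apply transfer (n := 321) (by norm_num) hz hg
    simp only [map_sub, map_pow, hT2, map_ofNat]
    ring
  have h2 : aeval (49 : ZMod 643) ((P w) ^ 12 - (215 - 12 * C η * T) ^ 6) = 0 := by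
    apply transfer (n := 321) (by norm_num) hz hg
    simp only [map_sub, map_pow, map_mul, map_ofNat, aeval_P, eq_intCast, map_intCast]
    rw [hS, mul_assoc, hηr]
    ring
  simp only [map_sub, map_pow, map_mul, map_ofNat, eq_intCast, map_intCast, hv] at h1 h2
  set t := aeval (49 : ZMod 643) T with ht
  have h3 : (t - 103) * (t + 103) = 0 := by
    have h321 : (321 : ZMod 643) = 103 ^ 2 := by decide +kernel
    rw [h321] at h1
    linear_combination h1
  have h4 : v ^ 12 = (215 - 12 * (η : ZMod 643) * t) ^ 6 := by linear_combination h2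
  rcases mul_eq_zero.1 h3 with h5 | h5
  · have h6 : t = 103 := by linear_combination h5
    rw [h6] at h4
    rcases hη with h7 | h7
    · left; rw [h4, h7]; push_cast; ring
    · right; rw [h4, h7]; push_cast; ring
  · have h6 : t = -103 := by linear_combination h5
    rw [h6] at h4
    rcases hη with h7 | h7
    · right; rw [h4, h7]; push_cast; ring
    · left; rw [h4, h7]; push_cast; ring

lemma eval_P (w : ℕ) (a : ℤ) (ha : (49 : ZMod 643) ^ w = a) :
    aeval (49 : ZMod 643) (P w) =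
      ((∏ k ∈ Finset.Icc 1 53, (a - 623 ^ (k ^ 2 % 107)) : ℤ) : ZMod 643) := by
  unfold P
  rw [map_prod]
  push_cast
  refine Finset.prod_congr rfl fun k _ => ?_
  have h3 : (49 : ZMod 643) ^ 3 = 623 := by decide +kernel
  rw [map_sub, map_pow, map_pow, aeval_X, ha, pow_mul, h3]

lemma num1 : (∏ k ∈ Finset.Icc 1 53, ((177 : ℤ) - 623 ^ (k ^ 2 % 107))) % 643 = 336 := by
  decide +kernel

lemma num2 : (∏ k ∈ Finset.Icc 1 53, ((465 : ℤ) - 623 ^ (k ^ 2 % 107))) % 643 = 377 := by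
  decide +kernel

lemma cast_of_mod {a b : ℤ} (h : a % 643 = b) : (a : ZMod 643) = b := by
  have := ZMod.intCast_mod a 643
  rw [← h]
  exact this.symm

lemma least : LeastSolution 107 12 2 := by
  have hl : legendreSym 3 ((107 : ℕ) : ℤ) = -1 := by
    have : legendreSym 3 ((107 : ℕ) : ℤ) = legendreSym 3 (2 : ℤ) := by
      rw [legendreSym.mod]; norm_num
    rw [this, legendreSym.at_two (by norm_num), ZMod.χ₈_nat_eq_if_mod_eight]
    norm_num
  refine ⟨by norm_num, by norm_num, ?_, ?_⟩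
  · rw [hl]; norm_num
  · intro x y hx hy h
    rw [hl] at h
    push_cast at h
    have hy2 : 2 ≤ y := by
      by_contra hc
      have hy1 : y = 1 := by omega
      rw [hy1] at h
      have h1 : (x : ℤ) ^ 2 = 37 := by push_cast at h; linarith
      have h2 : (x : ℤ) ≤ 6 := by nlinarith
      have h3 : x ≤ 6 := by exact_mod_cast h2
      interval_cases x <;> norm_num at h1
    refine ⟨?_, hy2⟩
    have h4 : (2 : ℤ) ≤ y := by exact_mod_cast hy2
    have h5 : (12 : ℤ) ≤ x := by nlinarith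
    exact_mod_cast h5

lemma sign_pow (n : ℕ) : ((-1 : ℂ) ^ n) ^ 12 = 1 := by
  rw [← pow_mul, mul_comm, pow_mul]
  norm_num

lemma sigma_pow : (sigma 107) ^ 12 = 1 := by
  have hl : legendreSym 3 ((107 : ℕ) : ℤ) = -1 := by
    have : legendreSym 3 ((107 : ℕ) : ℤ) = legendreSym 3 (2 : ℤ) := by
      rw [legendreSym.mod]; norm_num
    rw [this, legendreSym.at_two (by norm_num), ZMod.χ₈_nat_eq_if_mod_eight]
    norm_num
  unfold sigma
  rw [mul_pow, sign_pow, hl]
  norm_num

lemma omega_pow : omega ^ 12 = 1 := by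
  rw [← z_pow_107, ← pow_mul, show 107 * 12 = 321 * 4 by norm_num, pow_mul, hz.pow_eq_one, one_pow]

lemma I_pow : I ^ 12 = 1 := by
  rw [show 12 = 4 * 3 by norm_num, pow_mul, I_pow_four, one_pow]

lemma c_pow : (c 107) ^ 12 = 1 := by
  unfold c
  rw [if_neg (by norm_num), mul_pow, mul_pow, sign_pow, I_pow, omega_pow]
  norm_num

lemma d_pow : (d 107) ^ 12 = 1 := by
  unfold d
  rw [if_neg (by norm_num), mul_pow, mul_pow, sign_pow, I_pow, ← map_pow, omega_pow, map_one]
  norm_num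

lemma sqrt_rel (ε : ℤ) (hε : ε = 1 ∨ ε = -1) :
    ((((12 : ℕ) : ℂ) * ((Real.sqrt 3 : ℝ) : ℂ) - ε * ((2 : ℕ) : ℂ) * ((Real.sqrt (107 : ℕ) : ℝ) : ℂ)) /
      2) ^ 12 = (215 - 12 * ε * (((Real.sqrt 3 : ℝ) : ℂ) * ((Real.sqrt 107 : ℝ) : ℂ))) ^ 6 := by
  have h1 : (((Real.sqrt 3 : ℝ) : ℂ)) ^ 2 = 3 := by
    rw [← Complex.ofReal_pow, Real.sq_sqrt (by norm_num)]; norm_num
  have h2 : (((Real.sqrt 107 : ℝ) : ℂ)) ^ 2 = 107 := by
    rw [← Complex.ofReal_pow, Real.sq_sqrt (by norm_num)]; norm_num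
  have h3 : (ε : ℂ) ^ 2 = 1 := by
    rcases hε with h | h <;> rw [h] <;> norm_num
  push_cast
  rw [show (12 : ℕ) = 2 * 6 by norm_num, pow_mul]
  congr 1
  linear_combination 36 * h1 + (ε : ℂ) ^ 2 * h2 + 107 * h3

/-- **Q1 is false**, at `p = 107`: there is a prime `p > 3`, `p ≡ 3 (mod 4)`, with least solution
`(x, y)` for which neither of the two identities holds. -/
theorem result : ∃ (p : ℕ) (_ : Fact p.Prime) (x y : ℕ), 3 < p ∧ p % 4 = 3 ∧ LeastSolution p x y ∧
    S p omega ≠ sigma p * c p * (((x : ℂ) * ((Real.sqrt 3 : ℝ) : ℂ) -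
      (y : ℂ) * ((Real.sqrt p : ℝ) : ℂ)) / 2) ∧
    S p ((starRingEnd ℂ) omega) ≠ -(sigma p) * d p * (((x : ℂ) * ((Real.sqrt 3 : ℝ) : ℂ) +
      (y : ℂ) * ((Real.sqrt p : ℝ) : ℂ)) / 2) := by
  refine ⟨107, fact107, 12, 2, by norm_num, by norm_num, least, ?_, ?_⟩
  · intro h
    have h1 : aeval (49 : ZMod 643) (P 107) = 336 := by
      rw [eval_P 107 177 (by decide +kernel), cast_of_mod num1]; rfl
    have h2 := core 107 336 h1 1 (Or.inl rfl) (by
      rw [z_pow_107, h, mul_pow, mul_pow, sigma_pow, c_pow, one_mul, one_mul,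
        ← sqrt_rel 1 (Or.inl rfl)]
      push_cast
      ring)
    revert h2
    decide +kernel
  · intro h
    have h1 : aeval (49 : ZMod 643) (P 214) = 377 := by
      rw [eval_P 214 465 (by decide +kernel), cast_of_mod num2]; rfl
    have h2 := core 214 377 h1 (-1) (Or.inr rfl) (by
      rw [z_pow_214, h, mul_pow, mul_pow, neg_pow, sigma_pow, d_pow,
        ← sqrt_rel (-1) (Or.inr rfl)]
      push_cast
      ring)
    revert h2
    decide +kernel

end Pool.Agent.Results.MP_06877e_nt.CounterexampleAt107
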